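import Mathlib

/-!
# Every admissible parameter set of a double or triple array has `v ≥ r + c - 1`

Let `v e = r c`, `(r-1) ∣ c (e-1)`, `(c-1) ∣ r (e-1)`, `v > max (r, c)`, `e ≥ 2`, and suppose that
`Z = r + c - 1 - v` is positive.  Put `E = e - 1`.  The congruence `c E ≡ e Z (mod r-1)` shows that
`r - 1` divides `c Z` as well, and similarly `c - 1 ∣ r Z`.  With `g₁ = gcd (r-1, c)`,
`g₂ = gcd (c-1, r)`, `r - 1 = g₁ d α`, `c - 1 = g₂ d β`, `gcd (α, β) = 1`, we get `E = x d α β`,
`Z = y d α β`, `x v = g₁ g₂ d + y`, `x - y = j d` with `j ≥ 1`, `y e = h g₁ g₂`, and finally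
`x (r c / (g₁ g₂)) = d e + h`, hence `x ∣ d + h`.  As `h < d < x` this forces `x = d + h`, `j = 1`,
`y = h` and `e = g₁ g₂`, which contradicts `g₁ > x β`, `g₂ > x α`.
-/

namespace Pool.Agent.Results.MP_4cb54f_co.NoSmallSymbolSets

/-- `(v, r, c)` is admissible: it lies in the non-trivial range `r, c ≥ 2`, `max (r, c) < v ≤ r c / 2`
and satisfies the basic divisibility conditions, where `e = r c / v`. -/
def Admissible (v r c : ℕ) : Prop :=
  2 ≤ r ∧ 2 ≤ c ∧ max r c < v ∧ 2 * v ≤ r * c ∧ v ∣ r * c ∧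
    (r - 1) ∣ c * (r * c / v - 1) ∧ (c - 1) ∣ r * (r * c / v - 1)

/-- First step: `R ∣ (C+1) Z`. -/
theorem dvd_step {R C E v Z : ℕ} (hv : (E + 1) * v = (R + 1) * (C + 1)) (hZ : v + Z = R + C + 1)
    (h : R ∣ (C + 1) * E) : R ∣ (C + 1) * Z := by
  have hz : (Z : ℤ) = R + C + 1 - v := by
    have : ((v + Z : ℕ) : ℤ) = ((R + C + 1 : ℕ) : ℤ) := by rw [hZ]
    push_cast at this
    linarith
  have hvz : ((E : ℤ) + 1) * v = (R + 1) * (C + 1) := by exact_mod_cast hv
  have h' : (R : ℤ) ∣ (C + 1) * E := by exact_mod_cast h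
  have e1 : ((C : ℤ) + 1) * E - (E + 1) * Z = R * (C - E) := by
    rw [hz]
    linear_combination hvz
  have h1 : (R : ℤ) ∣ ((E : ℤ) + 1) * Z := by
    have e2 : ((E : ℤ) + 1) * Z = (C + 1) * E - R * (C - E) := by linarith
    rw [e2]
    exact dvd_sub h' (Dvd.intro _ rfl)
  have h2 : (R : ℤ) ∣ ((C : ℤ) + 1) * Z := by
    have e3 : ((C : ℤ) + 1) * Z = (C + 1) * ((E + 1) * Z) - (C + 1) * E * Z := by ring
    rw [e3]
    exact dvd_sub (Dvd.dvd.mul_left h1 _) (Dvd.dvd.mul_right h' _)
  exact_mod_cast h2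

/-- The last step: the contradiction from the final system of equations. -/
theorem final {g1 g2 d α β x y h e : ℕ} (hd : 0 < d) (hα : 0 < α) (hy : 0 < y)
    (hh : 0 < h) (he : e = 1 + x * d * α * β) (hye : y * e = h * (g1 * g2))
    (hg1 : x * β < g1) (hg2 : x * α < g2) (hxd : ∃ j, x = y + j * d ∧ 0 < j)
    (hdvd : x ∣ d + h) : False := by
  obtain ⟨j, hj, hj0⟩ := hxd
  have hxy : y + d ≤ x := by
    rw [hj]
    have : 1 * d ≤ j * d := Nat.mul_le_mul_right _ hj0
    omega
  have hprod : (x * β + 1) * (x * α + 1) ≤ g1 * g2 := Nat.mul_le_mul hg1 hg2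
  have hx0 : 0 < x := by omega
  have hhd : h < d := by
    by_contra hcon
    push Not at hcon
    have h1 : d * ((x * β + 1) * (x * α + 1)) ≤ h * (g1 * g2) := Nat.mul_le_mul hcon hprod
    have h2 : y + 1 ≤ x := by omega
    have h3 : (y + 1) * e ≤ x * e := Nat.mul_le_mul_right _ h2
    have h4 : d * ((x * β + 1) * (x * α + 1)) + e ≤ x * e := by
      calc _ ≤ h * (g1 * g2) + e := by omega
        _ = (y + 1) * e := by rw [← hye]; ring
        _ ≤ _ := h3
    have h5 : x * e = x + d * (x * β) * (x * α) := by rw [he]; ring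
    have h6 : d * ((x * β + 1) * (x * α + 1)) =
        d * (x * β) * (x * α) + d * (x * β) + d * (x * α) + d := by ring
    have h7 : x ≤ d * (x * α) := by
      calc x = 1 * (x * 1) := by ring
        _ ≤ d * (x * α) := Nat.mul_le_mul hd (Nat.mul_le_mul_left _ hα)
    have h8 : 0 < e := by rw [he]; omega
    omega
  obtain ⟨k, hk⟩ := hdvd
  have hk1 : k = 1 := by
    rcases Nat.lt_or_ge k 2 with h1 | h1
    · have : k ≠ 0 := by
        intro h0
        rw [h0] at hk
        omega
      omega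
    · exfalso
      have : x * 2 ≤ x * k := Nat.mul_le_mul_left _ h1
      omega
  rw [hk1, mul_one] at hk
  have hj1 : j = 1 := by
    rcases Nat.lt_or_ge j 2 with h1 | h1
    · omega
    · exfalso
      have : 2 * d ≤ j * d := Nat.mul_le_mul_right _ h1
      omega
  have hyh : y = h := by
    rw [hj1, one_mul] at hj
    omega
  rw [hyh] at hye
  have heg : e = g1 * g2 := Nat.eq_of_mul_eq_mul_left hh hye
  have h1 : (x * β + 1) * (x * α + 1) = x * (x * α * β) + x * α + x * β + 1 := by ring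
  have h2 : x * d * α * β = d * (x * α * β) := by ring
  have h3 : d * (x * α * β) ≤ x * (x * α * β) := Nat.mul_le_mul_right _ (by omega)
  have h4 : 0 < x * α := Nat.mul_pos hx0 hα
  omega

theorem main {R C E v : ℕ} (hR : 0 < R) (hC : 0 < C) (hE : 0 < E)
    (hv : (E + 1) * v = (R + 1) * (C + 1)) (hvR : R + 1 < v) (hvC : C + 1 < v)
    (h1 : R ∣ (C + 1) * E) (h2 : C ∣ (R + 1) * E) : R + C + 1 ≤ v := by
  by_contra hcon
  push Not at hcon
  obtain ⟨Z, hZ, hZ0⟩ : ∃ Z, v + Z = R + C + 1 ∧ 0 < Z := ⟨R + C + 1 - v, by omega, by omega⟩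
  have h3 : R ∣ (C + 1) * Z := dvd_step hv hZ h1
  have h4 : C ∣ (R + 1) * Z :=
    dvd_step (R := C) (C := R) (by rw [hv]; ring) (by omega) h2
  -- the gcds
  have hg1pos : 0 < Nat.gcd R (C + 1) := Nat.gcd_pos_of_pos_left _ hR
  have hg2pos : 0 < Nat.gcd C (R + 1) := Nat.gcd_pos_of_pos_left _ hC
  obtain ⟨A, w, hAw, hRA, hCw⟩ := Nat.exists_coprime R (C + 1)
  obtain ⟨B, u, hBu, hCB, hRu⟩ := Nat.exists_coprime C (R + 1)
  set g1 := Nat.gcd R (C + 1) with hg1
  set g2 := Nat.gcd C (R + 1) with hg2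
  have dvdA : ∀ F, R ∣ (C + 1) * F → A ∣ F := by
    intro F hF
    rw [hCw] at hF
    nth_rewrite 1 [hRA] at hF
    have h5 : A * g1 ∣ (w * F) * g1 := by
      have : w * F * g1 = w * g1 * F := by ring
      rw [this]; exact hF
    have h6 : A ∣ w * F := Nat.dvd_of_mul_dvd_mul_right hg1pos h5
    exact hAw.dvd_of_dvd_mul_left h6
  have dvdB : ∀ F, C ∣ (R + 1) * F → B ∣ F := by
    intro F hF
    rw [hRu] at hF
    nth_rewrite 1 [hCB] at hF
    have h5 : B * g2 ∣ (u * F) * g2 := by
      have : u * F * g2 = u * g2 * F := by ring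
      rw [this]; exact hF
    have h6 : B ∣ u * F := Nat.dvd_of_mul_dvd_mul_right hg2pos h5
    exact hBu.dvd_of_dvd_mul_left h6
  have hAE := dvdA E h1
  have hAZ := dvdA Z h3
  have hBE := dvdB E h2
  have hBZ := dvdB Z h4
  have hA0 : 0 < A := by
    rcases Nat.eq_zero_or_pos A with h | h
    · rw [h, zero_mul] at hRA; omega
    · exact h
  have hB0 : 0 < B := by
    rcases Nat.eq_zero_or_pos B with h | h
    · rw [h, zero_mul] at hCB; omega
    · exact h
  have hd0 : 0 < Nat.gcd A B := Nat.gcd_pos_of_pos_left _ hA0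
  obtain ⟨α, β, hαβ, hAα, hBβ⟩ := Nat.exists_coprime A B
  set d := Nat.gcd A B with hd
  have hα0 : 0 < α := by
    rcases Nat.eq_zero_or_pos α with h | h
    · rw [h, zero_mul] at hAα; omega
    · exact h
  have hβ0 : 0 < β := by
    rcases Nat.eq_zero_or_pos β with h | h
    · rw [h, zero_mul] at hBβ; omega
    · exact h
  have hlcm : ∀ F, A ∣ F → B ∣ F → ∃ x, F = x * (d * α * β) := by
    intro F hAF hBF
    obtain ⟨k, hk⟩ := hAF
    have h5 : β * d ∣ (α * k) * d := by
      rw [← hBβ]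
      have : α * k * d = F := by rw [hk, hAα]; ring
      rw [this]; exact hBF
    have h6 : β ∣ α * k := Nat.dvd_of_mul_dvd_mul_right hd0 h5
    have h7 : β ∣ k := (Nat.Coprime.symm hαβ).dvd_of_dvd_mul_left h6
    obtain ⟨x, hx⟩ := h7
    exact ⟨x, by rw [hk, hx, hAα]; ring⟩
  obtain ⟨x, hx⟩ := hlcm E hAE hBE
  obtain ⟨y, hy⟩ := hlcm Z hAZ hBZ
  have hL : 0 < d * α * β := by positivity
  have hy0 : 0 < y := by
    rcases Nat.eq_zero_or_pos y with h | h
    · rw [h, zero_mul] at hy; omega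
    · exact h
  have hx0 : 0 < x := by
    rcases Nat.eq_zero_or_pos x with h | h
    · rw [h, zero_mul] at hx; omega
    · exact h
  -- `x v = g1 g2 d + y`
  have key : x * v = g1 * g2 * d + y := by
    have h5 : E * v = R * C + Z := by
      have h6 : E * v + v = R * C + R + C + 1 := by
        calc E * v + v = (E + 1) * v := by ring
          _ = (R + 1) * (C + 1) := hv
          _ = _ := by ring
      omega
    have h7 : (d * α * β) * (x * v) = (d * α * β) * (g1 * g2 * d + y) := by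
      calc (d * α * β) * (x * v) = E * v := by rw [hx]; ring
        _ = R * C + Z := h5
        _ = (A * g1) * (B * g2) + y * (d * α * β) := by rw [← hRA, ← hCB, ← hy]
        _ = _ := by rw [hAα, hBβ]; ring
    exact Nat.eq_of_mul_eq_mul_left hL h7
  -- `x > y`
  have hyx : y < x := by
    have h5 : Z < E := by
      have hz : (Z : ℤ) = R + C + 1 - v := by
        have : ((v + Z : ℕ) : ℤ) = ((R + C + 1 : ℕ) : ℤ) := by rw [hZ]
        push_cast at this
        linarith
      have hvz : ((E : ℤ) + 1) * v = (R + 1) * (C + 1) := by exact_mod_cast hv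
      have h6 : ((E : ℤ) - Z) * v = (v - R - 1) * (v - C - 1) := by
        rw [hz]; linear_combination hvz
      have h7 : (0 : ℤ) < (v - R - 1) * (v - C - 1) := by
        apply mul_pos
        · have : ((R : ℤ) + 1) < v := by exact_mod_cast hvR
          linarith
        · have : ((C : ℤ) + 1) < v := by exact_mod_cast hvC
          linarith
      rw [← h6] at h7
      have hv0 : (0 : ℤ) < v := by
        have : 0 < v := by omega
        exact_mod_cast this
      have h8 : (0 : ℤ) < (E : ℤ) - Z := (mul_pos_iff_of_pos_right hv0).1 h7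
      have : (Z : ℤ) < E := by linarith
      exact_mod_cast this
    rw [hx, hy] at h5
    exact Nat.lt_of_mul_lt_mul_right h5
  -- `x - y = j d`
  have hj : ∃ j, x = y + j * d ∧ 0 < j := by
    have h5 : (d : ℤ) ∣ (x : ℤ) - y := by
      have hvz : (v : ℤ) = g1 * (α * d) + g2 * (β * d) + 1 - y * (d * α * β) := by
        have h6 : ((v + Z : ℕ) : ℤ) = ((R + C + 1 : ℕ) : ℤ) := by rw [hZ]
        rw [hRA, hCB, hAα, hBβ, hy] at h6
        push_cast at h6
        linarith
      have kz : (x : ℤ) * v = g1 * g2 * d + y := by exact_mod_cast key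
      rw [hvz] at kz
      refine ⟨g1 * g2 + x * y * α * β - x * (g1 * α + g2 * β), ?_⟩
      linear_combination kz
    obtain ⟨j, hj⟩ := h5
    have hjpos : 0 < j := by
      have h6 : (0 : ℤ) < (x : ℤ) - y := by
        have : (y : ℤ) < x := by exact_mod_cast hyx
        linarith
      rw [hj] at h6
      have hd' : (0 : ℤ) < d := by exact_mod_cast hd0
      exact (mul_pos_iff_of_pos_left hd').1 h6
    obtain ⟨n, rfl⟩ := Int.eq_ofNat_of_zero_le hjpos.le
    refine ⟨n, ?_, by exact_mod_cast hjpos⟩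
    have : (x : ℤ) = y + n * d := by linarith
    exact_mod_cast this
  -- `g1 g2 ∣ y e`
  have hcop : Nat.Coprime g1 g2 := by
    have h5 : g1 ∣ C + 1 := Nat.gcd_dvd_right _ _
    have h6 : g2 ∣ C := Nat.gcd_dvd_left _ _
    have h7 : Nat.Coprime (C + 1) C := by
      rw [Nat.coprime_self_add_left]
      exact Nat.coprime_one_left C
    exact Nat.Coprime.coprime_dvd_left h5 (Nat.Coprime.coprime_dvd_right h6 h7)
  have hyE : y * E = x * Z := by rw [hx, hy]; ring
  have hdiv1 : g1 ∣ y * (E + 1) := by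
    have h5 : y * (E + 1) + g1 * (g2 * d) = g1 * (x * (A + w)) := by
      calc y * (E + 1) + g1 * (g2 * d) = x * Z + (g1 * g2 * d + y) := by
            rw [mul_add, hyE]; ring
        _ = x * (v + Z) := by rw [← key]; ring
        _ = x * (R + (C + 1)) := by rw [hZ, Nat.add_assoc]
        _ = x * (A * g1 + w * g1) := by rw [← hRA, ← hCw]
        _ = _ := by ring
    have h6 : g1 ∣ y * (E + 1) + g1 * (g2 * d) := by rw [h5]; exact Dvd.intro _ rfl
    exact (Nat.dvd_add_left (Dvd.intro _ rfl)).1 h6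
  have hdiv2 : g2 ∣ y * (E + 1) := by
    have h5 : y * (E + 1) + g2 * (g1 * d) = g2 * (x * (B + u)) := by
      calc y * (E + 1) + g2 * (g1 * d) = x * Z + (g1 * g2 * d + y) := by
            rw [mul_add, hyE]; ring
        _ = x * (v + Z) := by rw [← key]; ring
        _ = x * (C + (R + 1)) := by rw [hZ]; ring
        _ = x * (B * g2 + u * g2) := by rw [← hCB, ← hRu]
        _ = _ := by ring
    have h6 : g2 ∣ y * (E + 1) + g2 * (g1 * d) := by rw [h5]; exact Dvd.intro _ rfl
    exact (Nat.dvd_add_left (Dvd.intro _ rfl)).1 h6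
  obtain ⟨h, hh⟩ := Nat.Coprime.mul_dvd_of_dvd_of_dvd hcop hdiv1 hdiv2
  have hh0 : 0 < h := by
    rcases Nat.eq_zero_or_pos h with h5 | h5
    · rw [h5, mul_zero] at hh
      have : 0 < y * (E + 1) := by positivity
      omega
    · exact h5
  have hgg : 0 < g1 * g2 := Nat.mul_pos hg1pos hg2pos
  -- `x u w = d e + h`
  have hxuw : x * (u * w) = d * (E + 1) + h := by
    have h5 : (g1 * g2) * (y * (x * (u * w))) = (g1 * g2) * (y * (d * (E + 1) + h)) := by
      calc (g1 * g2) * (y * (x * (u * w))) = y * x * ((u * g2) * (w * g1)) := by ring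
        _ = y * x * ((R + 1) * (C + 1)) := by rw [← hRu, ← hCw]
        _ = (x * v) * (y * (E + 1)) := by rw [← hv]; ring
        _ = (g1 * g2 * d + y) * (g1 * g2 * h) := by rw [key, hh]
        _ = (g1 * g2) * (d * (g1 * g2 * h) + y * h) := by ring
        _ = (g1 * g2) * (y * (d * (E + 1) + h)) := by rw [← hh]; ring
    have h6 := Nat.eq_of_mul_eq_mul_left hgg h5
    exact Nat.eq_of_mul_eq_mul_left hy0 h6
  have hdvd : x ∣ d + h := by
    have h5 : x * (u * w) = x * (d * (d * α * β)) + (d + h) := by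
      rw [hxuw, hx]; ring
    have h6 : x ∣ x * (d * (d * α * β)) + (d + h) := by rw [← h5]; exact Dvd.intro _ rfl
    exact (Nat.dvd_add_right (Dvd.intro _ rfl)).1 h6
  -- `E < R`, `E < C`
  have hER : E < R := by
    by_contra hc
    push Not at hc
    have h5 : (R + 1) * v ≤ (E + 1) * v := Nat.mul_le_mul_right _ (by omega)
    have h6 : (R + 1) * (C + 1) < (R + 1) * v := Nat.mul_lt_mul_of_pos_left hvC (by omega)
    omega
  have hEC : E < C := by
    by_contra hc
    push Not at hc
    have h5 : (C + 1) * v ≤ (E + 1) * v := Nat.mul_le_mul_right _ (by omega)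
    have h6 : (C + 1) * (R + 1) < (C + 1) * v := Nat.mul_lt_mul_of_pos_left hvR (by omega)
    have h7 : (C + 1) * (R + 1) = (R + 1) * (C + 1) := by ring
    omega
  have hg1' : x * β < g1 := by
    rw [hx, hRA, hAα] at hER
    have h5 : (x * β) * (d * α) < g1 * (d * α) := by
      calc (x * β) * (d * α) = x * (d * α * β) := by ring
        _ < α * d * g1 := hER
        _ = _ := by ring
    exact Nat.lt_of_mul_lt_mul_right h5
  have hg2' : x * α < g2 := by
    rw [hx, hCB, hBβ] at hEC
    have h5 : (x * α) * (d * β) < g2 * (d * β) := by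
      calc (x * α) * (d * β) = x * (d * α * β) := by ring
        _ < β * d * g2 := hEC
        _ = _ := by ring
    exact Nat.lt_of_mul_lt_mul_right h5
  exact final (e := E + 1) hd0 hα0 hy0 hh0 (by rw [hx]; ring) (by rw [hh]; ring) hg1' hg2' hj
    hdvd

/-- **The negated form of Q1.**  Every admissible parameter set `(v, r, c)` for double or triple
arrays satisfies `v ≥ r + c - 1`. -/
theorem result : ∀ v r c : ℕ, Admissible v r c → r + c - 1 ≤ v := by
  rintro v r c ⟨hr, hc, hmax, h2v, hdvd, h1, h2⟩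
  rw [max_lt_iff] at hmax
  obtain ⟨R, rfl⟩ : ∃ R, r = R + 1 := ⟨r - 1, by omega⟩
  obtain ⟨C, rfl⟩ : ∃ C, c = C + 1 := ⟨c - 1, by omega⟩
  obtain ⟨e, he⟩ := hdvd
  have hv0 : 0 < v := by omega
  rw [he, Nat.mul_div_cancel_left _ hv0] at h1 h2
  have he2 : 2 ≤ e := by
    by_contra hcon
    push Not at hcon
    have h3 : v * e ≤ v * 1 := Nat.mul_le_mul_left _ (by omega)
    omega
  obtain ⟨E, rfl⟩ : ∃ E, e = E + 1 := ⟨e - 1, by omega⟩
  rw [Nat.add_sub_cancel, Nat.add_sub_cancel] at h1 h2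
  have := main (R := R) (C := C) (E := E) (v := v) (by omega) (by omega) (by omega)
    (by rw [he]; ring) hmax.1 hmax.2 h1 h2
  omega

end Pool.Agent.Results.MP_4cb54f_co.NoSmallSymbolSets
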